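import Pool.Agent.H200M.Stm

/-! # Project MC of helper200: JOB MC-ITEM (MC7), items from middle multiplicities and small items -/

set_option autoImplicit false

namespace Pool.Agent.Q92.MC

open Finset Pool.Agent.TH176.Nag Pool.Agent.TH603.Sur Pool.Agent.TH2.NU Pool.Agent.TH641.UM
open Pool.Agent.Y205.FW Pool.Agent.Y205.MD Pool.Agent.H200W Pool.Agent.H200P Pool.Agent.H200C
open Pool.Agent.H200G Pool.Agent.H200M

lemma q0_add (A B : Multiset ℕ) : q0 (A + B) = q0 A + q0 B := by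
  unfold q0
  rw [Multiset.map_add, Multiset.sum_add]

lemma q1_add (A B : Multiset ℕ) : q1 (A + B) = q1 A + q1 B := by
  unfold q1
  rw [Multiset.map_add, Multiset.sum_add]

lemma q0_zero : q0 0 = 0 := by simp [q0]

lemma q1_zero : q1 0 = 0 := by simp [q1]

lemma q0_pm (B : List (ℕ × ℕ)) : q0 (pm B) = sq0 B := by
  induction B with
  | nil => simp [pm, sq0, q0_zero]
  | cons p B ih =>
    have h1 : pm (p :: B) = ({p.1, p.2} : Multiset ℕ) + pm B := by simp [pm]
    have h2 : sq0 (p :: B) = ((p.1 : ℝ) ^ 2 + (p.2 : ℝ) ^ 2) + sq0 B := by simp [sq0]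
    rw [h1, h2, q0_add, ih]
    simp [q0]

lemma q1_pm (B : List (ℕ × ℕ)) : q1 (pm B) = sq1 B := by
  induction B with
  | nil => simp [pm, sq1, q1_zero]
  | cons p B ih =>
    have h1 : pm (p :: B) = ({p.1, p.2} : Multiset ℕ) + pm B := by simp [pm]
    have h2 : sq1 (p :: B) = (((p.1 : ℝ) + 1) ^ 2 + ((p.2 : ℝ) + 1) ^ 2) + sq1 B := by simp [sq1]
    rw [h1, h2, q1_add, ih]
    simp [q1]

lemma q0_pmT (L : List (ℝ × List (ℕ × ℕ))) : q0 (pmT L) = sqT0 L := by
  induction L with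
  | nil => simp [pmT, sqT0, q0_zero]
  | cons x L ih =>
    have h1 : pmT (x :: L) = pm x.2 + pmT L := by simp [pmT]
    have h2 : sqT0 (x :: L) = sq0 x.2 + sqT0 L := by simp [sqT0]
    rw [h1, h2, q0_add, ih, q0_pm]

lemma q1_pmT (L : List (ℝ × List (ℕ × ℕ))) : q1 (pmT L) = sqT1 L := by
  induction L with
  | nil => simp [pmT, sqT1, q1_zero]
  | cons x L ih =>
    have h1 : pmT (x :: L) = pm x.2 + pmT L := by simp [pmT]
    have h2 : sqT1 (x :: L) = sq1 x.2 + sqT1 L := by simp [sqT1]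
    rw [h1, h2, q1_add, ih, q1_pm]

lemma q0_le_q1 (K : Multiset ℕ) : q0 K ≤ q1 K := by
  unfold q0 q1
  refine Multiset.sum_map_le_sum_map _ _ fun m _ => ?_
  have : (0 : ℝ) ≤ (m : ℝ) := Nat.cast_nonneg m
  nlinarith

lemma tE_le_tS {h0 : ℝ} (L : List (Multiset ℕ × ℝ × ℝ)) (hL : ∀ x ∈ L, Ir h0 x) : tE L ≤ tS L := by
  unfold tE tS
  exact List.sum_le_sum fun x hx => (hL x hx).2.2.2.2.1

lemma RC_sub {h ρ ρ' : ℝ} (h2 : ρ' ≤ ρ) (h3 : 0 < ρ') : RC (ρ' * h) ρ' ⊆ RC (ρ * h) ρ := by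
  rintro ⟨a, b⟩ ⟨ha, hb, hab⟩
  refine ⟨ha, hb, ?_⟩
  simp only at ha hb hab ⊢
  have ha' : (0 : ℝ) ≤ (a : ℝ) := by exact_mod_cast ha
  have h4 : 0 ≤ h - b := by
    by_contra hc
    push Not at hc
    nlinarith
  nlinarith

lemma RO_sub {h ρ ρ' : ℝ} (h2 : ρ ≤ ρ') (h3 : 0 < ρ) : RO (ρ * h) ρ ⊆ RO (ρ' * h) ρ' := by
  rintro ⟨a, b⟩ ⟨ha, hb, hab⟩
  refine ⟨ha, hb, ?_⟩
  simp only at ha hb hab ⊢
  have ha' : (0 : ℝ) < (a : ℝ) := by exact_mod_cast ha
  have h4 : 0 < h - b := by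
    by_contra hc
    push Not at hc
    nlinarith
  nlinarith

lemma map_fst_E (L : List (Multiset ℕ × ℝ × ℝ)) :
    ((L.map fun x => (x.1, x.2.2)).map Prod.fst).sum = tM L := by
  unfold tM
  rw [List.map_map]
  rfl

lemma map_fst_S (L : List (Multiset ℕ × ℝ × ℝ)) :
    ((L.map fun x => (x.1, x.2.1)).map Prod.fst).sum = tM L := by
  unfold tM
  rw [List.map_map]
  rfl

lemma map_snd_E (L : List (Multiset ℕ × ℝ × ℝ)) :
    ((L.map fun x => (x.1, x.2.2)).map Prod.snd).sum = tE L := by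
  unfold tE
  rw [List.map_map]
  rfl

lemma map_snd_S (L : List (Multiset ℕ × ℝ × ℝ)) :
    ((L.map fun x => (x.1, x.2.1)).map Prod.snd).sum = tS L := by
  unfold tS
  rw [List.map_map]
  rfl

theorem itemR : S_ItemR := by
  intro hP hTS hTE hF h0 h G m1 K L h1 h2 h3 h4 h5 h6 h7 h8
  have hG : 32 ≤ G := by linarith
  have hm1 : (0 : ℝ) ≤ (m1 : ℝ) := Nat.cast_nonneg m1
  set β : ℝ := (m1 : ℝ) + 16 * G with hβ
  have hβ0 : 512 ≤ β := by linarith
  have hh : 512000 ≤ h := by linarith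
  have hh0 : 0 < h ^ 2 := by positivity
  have hGh : 16000 * G ≤ h := by linarith
  set u : ℝ := 1024 * h0 ^ 2 with hu
  have hu0 : 0 ≤ u := by positivity
  have huG : u ≤ G ^ 2 := by nlinarith
  have h5G : 5 * h0 ≤ G := by linarith
  have hq : q0 K ≤ q1 K := q0_le_q1 K
  have ht : tE L ≤ tS L := tE_le_tS L h5
  have hpos : 0 ≤ 3 * h ^ 2 / G := by positivity
  -- the numerical part for the packing
  have key : ∀ n : ℝ, q0 K + tE L ≤ n → n ≤ 7 * h ^ 2 →
      2 ≤ n / h ^ 2 ∧ n / h ^ 2 ≤ 7 ∧ n / h ^ 2 * h ^ 2 = n ∧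
      (n / h ^ 2 * h) ^ 2 / (n / h ^ 2) = n ∧
      ∃ T : List (ℝ × List (ℕ × ℕ)), FitR G (n / h ^ 2) (n / h ^ 2 * h) T ∧
        (pmT T = K ∨ pmT T = K + {0}) := by
    intro n hn hn7
    have e1 : 2 ≤ n / h ^ 2 := by
      rw [le_div_iff₀ hh0]
      linarith
    have e2 : n / h ^ 2 ≤ 7 := by
      rw [div_le_iff₀ hh0]
      exact hn7
    have e3 : n / h ^ 2 * h ^ 2 = n := div_mul_cancel₀ _ hh0.ne'
    set ρ := n / h ^ 2 with hρ
    have e4 : (ρ * h) ^ 2 / ρ = n := by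
      have : ρ ≠ 0 := by linarith
      rw [← e3]
      field_simp
    have e5 : 14 * G ≤ ρ * h := by nlinarith
    have e6 : ρ * h ≤ 7 * h := by nlinarith
    refine ⟨e1, e2, e3, e4, hP K (by linarith) e1 e2 e5 h4 ?_⟩
    rw [e4, ← hβ]
    have e7 : β ^ 2 ≤ β * h := by nlinarith
    have e8 : (6 * β + 1) * (ρ * h) ≤ (6 * β + 1) * (7 * h) :=
      mul_le_mul_of_nonneg_left e6 (by linarith)
    have e9 : 7 * h ≤ β * h := mul_le_mul_of_nonneg_right (by linarith) (by linarith)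
    nlinarith
  have hn'7 : q0 K + tE L ≤ 7 * h ^ 2 := by linarith
  constructor
  · -- independence
    obtain ⟨e1, e2, e3, e4, T, hT, hTK⟩ := key (q1 K + tS L + 3 * h ^ 2 / G) (by linarith) h8
    set n := q1 K + tS L + 3 * h ^ 2 / G with hn
    set ρ := n / h ^ 2 with hρ
    have hgood := hTS h1 h5G hu0 huG e1 e2 T (ρ * h) hT
    rw [e4] at hgood
    obtain ⟨-, f2, -, -⟩ := hF (G := G) (ρ := ρ) (by linarith) e1 T (ρ * h) (ρ * h) hT
    have hsq : sqT1 T ≤ q1 K + 1 := by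
      rw [← q1_pmT]
      rcases hTK with h9 | h9
      · rw [h9]
        linarith
      · rw [h9, q1_add]
        have : q1 {0} = 1 := by simp [q1]
        rw [this]
    have hlen : 16 * G * (T.length : ℝ) ≤ h := by
      have hρ0 : 0 < ρ := by linarith
      have : ρ * (16 * G * (T.length : ℝ)) ≤ ρ * h := by linarith
      exact le_of_mul_le_mul_left this hρ0
    have hlen0 : (0 : ℝ) ≤ (T.length : ℝ) := Nat.cast_nonneg _
    have hb7 : ρ * h ≤ 7 * h := by nlinarith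
    have hmain : (6 * (T.length : ℝ) + 1) * (ρ * h) + 1 ≤ 3 * h ^ 2 / G := by
      rw [le_div_iff₀ (by linarith)]
      have g1 : (6 * (T.length : ℝ) + 1) * (ρ * h) ≤ (6 * (T.length : ℝ) + 1) * (7 * h) :=
        mul_le_mul_of_nonneg_left hb7 (by linarith)
      have g2 : (6 * (T.length : ℝ) + 1) * (7 * h) * G ≤ 21 / 8 * h ^ 2 + 7 * h * G := by
        nlinarith
      have g3 : ((6 * (T.length : ℝ) + 1) * (ρ * h) + 1) * G ≤
          ((6 * (T.length : ℝ) + 1) * (7 * h) + 1) * G :=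
        mul_le_mul_of_nonneg_right (by linarith) (by linarith)
      have g4 : 16000 * G * h ≤ h * h := mul_le_mul_of_nonneg_right hGh (by linarith)
      nlinarith
    have hsur := hgood.2 (L.map fun x => (x.1, x.2.1)) (by
      intro y hy
      rw [List.mem_map] at hy
      obtain ⟨x, hx, rfl⟩ := hy
      obtain ⟨i1, i2, i3, i4, i5, i6⟩ := h5 x hx
      refine ⟨i1, by simp only; linarith, ?_⟩
      simp only
      rw [hu]
      linarith) (by
      rw [map_snd_S]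
      linarith)
    rw [map_fst_S] at hsur
    have hsur2 : SurM (K + tM L) (RO (ρ * h) ρ) := by
      rcases hTK with h9 | h9
      · rw [h9] at hsur
        exact hsur
      · rw [h9, add_right_comm] at hsur
        exact (Q211.PK.zero _ _).1 hsur
    intro ρ' hρ'
    refine Q187.WR.SurM_mono hsur2 (RO_sub ?_ (by linarith))
    exact le_of_mul_le_mul_right (by rw [e3]; exact hρ') hh0
  · -- emptiness
    obtain ⟨e1, e2, e3, e4, T, hT, hTK⟩ := key (q0 K + tE L) le_rfl hn'7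
    set n := q0 K + tE L with hn
    set ρ := n / h ^ 2 with hρ
    have hgood := hTE h1 h5G hu0 huG e1 e2 T (ρ * h) hT
    rw [e4] at hgood
    have hsq : sqT0 T = q0 K := by
      rw [← q0_pmT]
      rcases hTK with h9 | h9
      · rw [h9]
      · rw [h9, q0_add]
        have : q0 {0} = 0 := by simp [q0]
        rw [this, add_zero]
    have hemp := hgood (L.map fun x => (x.1, x.2.2)) (by
      intro y hy
      rw [List.mem_map] at hy
      obtain ⟨x, hx, rfl⟩ := hy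
      obtain ⟨i1, i2, i3, i4, i5, i6⟩ := h5 x hx
      refine ⟨i2, i3, ?_⟩
      simp only
      rw [hu]
      nlinarith) (by
      rw [map_snd_E, hsq]
      linarith)
    rw [map_fst_E] at hemp
    have hemp2 : EmpM (K + tM L) (RC (ρ * h) ρ) := by
      rcases hTK with h9 | h9
      · rw [h9] at hemp
        exact hemp
      · rw [h9, add_right_comm] at hemp
        exact (Q211.PK.zero _ _).2 hemp
    intro ρ' hρ'0 hρ'
    refine hemp2.mono_set (RC_sub ?_ hρ'0)
    exact le_of_mul_le_mul_right (by rw [e3]; exact hρ') hh0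

end Pool.Agent.Q92.MC
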